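import Pool.Agent.Lib.lead.CXGraphRed

/-!
# Arc-disjoint antistrong and strong spanning subdigraphs: definitions and membership in NP
-/

namespace Pool.Agent.Run7.h878.AS

open Pool.Agent.Lib.CX

variable {V W : Type}

/-- `Alt A x y l`: there is a walk from `x` to `y` whose first and last arcs are forward, with alternating forward and
backward arcs of `A`, and `l` is the list of its arcs -/
inductive Alt (A : V → V → Prop) : V → V → List (V × V) → Prop
  | last {x y : V} : A x y → Alt A x y [(x, y)]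
  | step {x u w y : V} {l : List (V × V)} : A x u → A w u → Alt A w y l → Alt A x y ((x, u) :: (w, u) :: l)

/-- forward antidirected trail from `x` to `y` -/
def FwdTrail (A : V → V → Prop) (x y : V) : Prop := ∃ l, Alt A x y l ∧ l.Nodup

/-- antistrong digraph (on the vertex set `V`) -/
def Antistrong (A : V → V → Prop) : Prop := 3 ≤ Nat.card V ∧ ∀ x y, x ≠ y → FwdTrail A x y

/-- strongly connected digraph (on the vertex set `V`) -/
def Strong (A : V → V → Prop) : Prop := ∀ x y, Relation.ReflTransGen A x y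

/-- The digraph `R` (loops of `R` are ignored) has two arc-disjoint spanning subdigraphs, the first antistrong and the
second strongly connected. -/
def Dec (R : V → V → Prop) : Prop :=
  ∃ A₁ A₂ : V → V → Prop, (∀ u v, A₁ u v → R u v ∧ u ≠ v) ∧ (∀ u v, A₂ u v → R u v ∧ u ≠ v) ∧
    (∀ u v, ¬ (A₁ u v ∧ A₂ u v)) ∧ Antistrong A₁ ∧ Strong A₂

/-- The problem: `a` is a digraph on the vertices `0, …, n - 1` -/
def HasDec (a : Gr) : Prop := Dec a.arc

/-! ### transport -/

theorem Alt.map {A : V → V → Prop} {B : W → W → Prop} (f : V → W) (h : ∀ u v, A u v → B (f u) (f v)) {x y : V}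
    {l : List (V × V)} (hl : Alt A x y l) : Alt B (f x) (f y) (l.map (Prod.map f f)) := by
  induction hl with
  | last h1 => exact .last (h _ _ h1)
  | step h1 h2 _ ih => exact .step (h _ _ h1) (h _ _ h2) ih

theorem Dec.of_equiv {R : V → V → Prop} {S : W → W → Prop} (e : V ≃ W)
    (h : ∀ u v, R u v ↔ S (e u) (e v)) (hR : Dec R) : Dec S := by
  obtain ⟨A₁, A₂, h1, h2, h3, h4, h5⟩ := hR
  refine ⟨fun u v => A₁ (e.symm u) (e.symm v), fun u v => A₂ (e.symm u) (e.symm v), fun u v huv => ?_,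
    fun u v huv => ?_, fun u v => h3 _ _, ⟨?_, fun x y hxy => ?_⟩, fun x y => ?_⟩
  · obtain ⟨h6, h7⟩ := h1 _ _ huv
    rw [h] at h6
    exact ⟨by simpa using h6, fun e' => h7 (by rw [e'])⟩
  · obtain ⟨h6, h7⟩ := h2 _ _ huv
    rw [h] at h6
    exact ⟨by simpa using h6, fun e' => h7 (by rw [e'])⟩
  · rw [← Nat.card_congr e]
    exact h4.1
  · obtain ⟨l, hl, hn⟩ := h4.2 (e.symm x) (e.symm y) (fun e' => hxy (e.symm.injective e'))
    refine ⟨l.map (Prod.map e e), ?_, hn.map (e.injective.prodMap e.injective)⟩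
    have := hl.map (B := fun u v => A₁ (e.symm u) (e.symm v)) e (fun u v h => by simpa using h)
    simpa using this
  · have := (h5 (e.symm x) (e.symm y)).lift (p := fun u v => A₂ (e.symm u) (e.symm v)) e
      (fun u v h => by simpa [Function.onFun] using h)
    simpa [Function.onFun] using this

/-! ### antistrong digraphs and the bipartite representation -/

/-- the tails `x` and `y` have a common head -/
def Lk (A : V → V → Prop) (x y : V) : Prop := ∃ u, A x u ∧ A y u

theorem Lk.symm {A : V → V → Prop} {x y : V} (h : Lk A x y) : Lk A y x := by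
  obtain ⟨u, h1, h2⟩ := h
  exact ⟨u, h2, h1⟩

theorem lk_symm {A : V → V → Prop} {x y : V} (h : Relation.ReflTransGen (Lk A) x y) :
    Relation.ReflTransGen (Lk A) y x := by
  induction h with
  | refl => exact .refl
  | tail _ h ih => exact .head h.symm ih

theorem Alt.exists_tail {A : V → V → Prop} {x y : V} {l : List (V × V)} (h : Alt A x y l) :
    ∃ w, Relation.ReflTransGen (Lk A) x w ∧ A w y := by
  induction h with
  | last h => exact ⟨_, .refl, h⟩
  | step h1 h2 _ ih =>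
    obtain ⟨w, h3, h4⟩ := ih
    exact ⟨w, .head ⟨_, h1, h2⟩ h3, h4⟩

theorem exists_alt {A : V → V → Prop} {x y w : V} (h : Relation.ReflTransGen (Lk A) x w) (hw : A w y) :
    ∃ l, Alt A x y l := by
  induction h using Relation.ReflTransGen.head_induction_on with
  | refl => exact ⟨_, .last hw⟩
  | head h _ ih =>
    obtain ⟨l, hl⟩ := ih
    obtain ⟨u, h1, h2⟩ := h
    exact ⟨_, .step h1 h2 hl⟩

/-- if the arc `(a, u)` is used by an alternating walk, then a final part of the walk starts at `a`, and a final part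
of the walk starts right after `(a, u)` -/
theorem Alt.cut {A : V → V → Prop} {x y : V} {l : List (V × V)} (h : Alt A x y l) {a u : V} (ha : (a, u) ∈ l) :
    ∃ l', Alt A a y l' ∧ l' <:+ l ∧ ((a, u) ∉ l' ∨ ∃ l'', l' = (a, u) :: l'') := by
  induction h with
  | last h =>
    rename_i x y
    simp only [List.mem_singleton, Prod.mk.injEq] at ha
    obtain ⟨rfl, rfl⟩ := ha
    exact ⟨_, .last h, List.suffix_rfl, .inr ⟨_, rfl⟩⟩
  | step h1 h2 h3 ih =>
    rename_i x v w y l
    by_cases h : (a, u) ∈ l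
    · obtain ⟨l', h4, h5, h6⟩ := ih h
      exact ⟨l', h4, h5.trans (List.suffix_append [(x, v), (w, v)] l), h6⟩
    · simp only [List.mem_cons, Prod.mk.injEq] at ha
      rcases ha with ⟨rfl, rfl⟩ | ⟨rfl, rfl⟩ | ha
      · exact ⟨_, .step h1 h2 h3, List.suffix_rfl, .inr ⟨_, rfl⟩⟩
      · exact ⟨_, h3, List.suffix_append [(x, u), (a, u)] l, .inl h⟩
      · exact absurd ha h

theorem Alt.nodup {A : V → V → Prop} {x y : V} {l : List (V × V)} (h : Alt A x y l) : FwdTrail A x y := by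
  induction h with
  | last h => exact ⟨_, .last h, by simp⟩
  | step h1 h2 h3 ih =>
    rename_i x u w y l
    obtain ⟨l, hl, hn⟩ := ih
    by_cases h4 : (x, u) ∈ l
    · obtain ⟨l', h5, h6, -⟩ := hl.cut h4
      exact ⟨l', h5, hn.sublist h6.sublist⟩
    by_cases hxw : x = w
    · subst hxw
      exact ⟨l, hl, hn⟩
    by_cases h5 : (w, u) ∈ l
    · obtain ⟨l', h6, h7, h8⟩ := hl.cut h5
      have h9 : (x, u) ∉ l' := fun h => h4 (h7.subset h)
      rcases h8 with h8 | ⟨l'', rfl⟩
      · exact ⟨_, .step h1 h2 h6, by simp [h9, h8, hxw, hn.sublist h7.sublist]⟩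
      · cases h6 with
        | last h => exact ⟨_, .last h1, by simp⟩
        | step h10 h11 h12 =>
          rename_i w' l3
          refine ⟨_, .step h1 h11 h12, ?_⟩
          have h13 := hn.sublist h7.sublist
          simp only [List.nodup_cons, List.mem_cons, not_or] at h13 h9 ⊢
          exact ⟨⟨h9.2.1, h9.2.2⟩, h13.2⟩
    · exact ⟨_, .step h1 h2 hl, by simp [h4, h5, hxw, hn]⟩

/-- antistrong digraphs have a connected bipartite representation, and conversely -/
theorem antistrong_iff {A : V → V → Prop} (r : V) : Antistrong A ↔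
    3 ≤ Nat.card V ∧ (∀ v, Relation.ReflTransGen (Lk A) r v) ∧ ∀ v, ∃ w, A w v := by
  constructor
  · rintro ⟨h1, h2⟩
    have h3 : ∀ x z : V, ∃ y, y ≠ x ∧ y ≠ z := by
      intro x z
      classical
      by_contra hc
      push Not at hc
      have : Finite V := Nat.finite_of_card_ne_zero (by omega)
      have h4 : Nat.card V ≤ 2 := by
        rw [← Set.ncard_univ]
        have h5 : (Set.univ : Set V) ⊆ {x, z} := by
          intro y _
          by_cases hy : y = x
          · exact .inl hy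
          · exact .inr (hc y hy)
        refine (Set.ncard_le_ncard h5 (Set.toFinite _)).trans ?_
        have h6 := Set.ncard_insert_le x {z}
        rw [Set.ncard_singleton] at h6
        exact h6
      omega
    refine ⟨h1, fun v => ?_, fun v => ?_⟩
    · obtain ⟨y, hy1, hy2⟩ := h3 r v
      obtain ⟨l, hl, -⟩ := h2 r y hy1.symm
      obtain ⟨l', hl', -⟩ := h2 v y hy2.symm
      obtain ⟨w, h4, h5⟩ := hl.exists_tail
      obtain ⟨w', h4', h5'⟩ := hl'.exists_tail
      exact h4.trans (.head ⟨y, h5, h5'⟩ (lk_symm h4'))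
    · obtain ⟨y, hy1, -⟩ := h3 v v
      obtain ⟨l, hl, -⟩ := h2 y v hy1
      obtain ⟨w, -, h5⟩ := hl.exists_tail
      exact ⟨w, h5⟩
  · rintro ⟨h1, h2, h3⟩
    refine ⟨h1, fun x y _ => ?_⟩
    obtain ⟨w, hw⟩ := h3 y
    obtain ⟨l, hl⟩ := exists_alt ((lk_symm (h2 x)).trans (h2 w)) hw
    exact hl.nodup

/-! ### certificates for reachability -/

/-- reachable from `r` in `k` steps -/
def stp (B : V → V → Prop) (r : V) : ℕ → V → Prop
  | 0, v => v = r
  | k + 1, v => ∃ u, stp B r k u ∧ B u v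

theorem exists_rank [Finite V] {B : V → V → Prop} {r : V} (h : ∀ v, Relation.ReflTransGen B r v) :
    ∃ d : V → ℕ, (∀ v, d v ≤ Nat.card V) ∧ ∀ v, v ≠ r → ∃ u, d u < d v ∧ B u v := by
  classical
  have := Fintype.ofFinite V
  have h1 : ∀ v, ∃ k, stp B r k v := by
    intro v
    induction h v with
    | refl => exact ⟨0, rfl⟩
    | tail _ h2 ih =>
      obtain ⟨k, hk⟩ := ih
      exact ⟨k + 1, _, hk, h2⟩
  let f : V → ℕ := fun v => Nat.find (h1 v)
  have h2 : ∀ v, v ≠ r → ∃ u, f u < f v ∧ B u v := by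
    intro v hv
    have h3 := Nat.find_spec (h1 v)
    rcases h4 : Nat.find (h1 v) with _ | k
    · rw [h4] at h3
      exact absurd h3 hv
    · rw [h4] at h3
      obtain ⟨u, hu, hb⟩ := h3
      refine ⟨u, ?_, hb⟩
      show Nat.find (h1 u) < Nat.find (h1 v)
      rw [h4]
      exact Nat.lt_succ_of_le (Nat.find_min' (h1 u) hu)
  refine ⟨fun v => (Finset.univ.filter fun u => f u < f v).card, fun v => ?_, fun v hv => ?_⟩
  · rw [Nat.card_eq_fintype_card]
    exact (Finset.card_filter_le _ _)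
  · obtain ⟨u, hu, hb⟩ := h2 v hv
    refine ⟨u, Finset.card_lt_card ?_, hb⟩
    rw [Finset.ssubset_iff_of_subset (fun w hw => by simp at hw ⊢; omega)]
    exact ⟨u, by simpa using hu, by simp⟩

theorem reach_of_rank {B : V → V → Prop} {r : V} (d : V → ℕ) (h : ∀ v, v ≠ r → ∃ u, d u < d v ∧ B u v) (v : V) :
    Relation.ReflTransGen B r v := by
  induction hk : d v using Nat.strong_induction_on generalizing v with
  | _ k ih =>
    subst hk
    by_cases hv : v = r
    · rw [hv]
    · obtain ⟨u, hu, hb⟩ := h v hv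
      exact (ih _ hu u rfl).tail hb

theorem strong_iff {A : V → V → Prop} (r : V) : Strong A ↔
    (∀ v, Relation.ReflTransGen A r v) ∧ ∀ v, Relation.ReflTransGen (fun x y => A y x) r v := by
  constructor
  · intro h
    refine ⟨h r, fun v => ?_⟩
    exact Relation.reflTransGen_swap.1 (h v r)
  · rintro ⟨h1, h2⟩ x y
    exact (Relation.reflTransGen_swap.1 (h2 x)).trans (h1 y)

def Chk1 (a : Gr) (c : (List (ℕ × ℕ) × List (ℕ × ℕ)) × List ℕ × List ℕ × List ℕ) : Prop :=
  3 ≤ a.n ∧ (∀ e ∈ c.1.1, e ∈ a.2 ∧ e.1 ≠ e.2) ∧ (∀ e ∈ c.1.2, e ∈ a.2 ∧ e.1 ≠ e.2 ∧ e ∉ c.1.1)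

def Chk2 (a : Gr) (c : (List (ℕ × ℕ) × List (ℕ × ℕ)) × List ℕ × List ℕ × List ℕ) : Prop :=
  (∀ v < a.n, ∃ w < a.n, (w, v) ∈ c.1.1) ∧
    (∀ v < a.n, v = 0 ∨ ∃ u < a.n, c.2.1.getD u 0 < c.2.1.getD v 0 ∧
      ∃ w < a.n, (u, w) ∈ c.1.1 ∧ (v, w) ∈ c.1.1)

def Chk3 (a : Gr) (c : (List (ℕ × ℕ) × List (ℕ × ℕ)) × List ℕ × List ℕ × List ℕ) : Prop :=
  (∀ v < a.n, v = 0 ∨ ∃ u < a.n, c.2.2.1.getD u 0 < c.2.2.1.getD v 0 ∧ (u, v) ∈ c.1.2) ∧
    ∀ v < a.n, v = 0 ∨ ∃ u < a.n, c.2.2.2.getD u 0 < c.2.2.2.getD v 0 ∧ (v, u) ∈ c.1.2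

instance (a c) : Decidable (Chk1 a c) := by unfold Chk1; infer_instance
instance (a c) : Decidable (Chk2 a c) := by unfold Chk2; infer_instance
instance (a c) : Decidable (Chk3 a c) := by unfold Chk3; infer_instance

/-- the check of a certificate: the two lists of arcs, and three rank functions -/
def Check (a : Gr) (c : (List (ℕ × ℕ) × List (ℕ × ℕ)) × List ℕ × List ℕ × List ℕ) : Prop :=
  Chk1 a c ∧ Chk2 a c ∧ Chk3 a c

instance (a c) : Decidable (Check a c) := by unfold Check; infer_instance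

theorem pt_check : PT fun p : Gr × ((List (ℕ × ℕ) × List (ℕ × ℕ)) × List ℕ × List ℕ × List ℕ) =>
    decide (Check p.1 p.2) := by
  have h1 : PT fun p : Gr × ((List (ℕ × ℕ) × List (ℕ × ℕ)) × List ℕ × List ℕ × List ℕ) =>
      decide (Chk1 p.1 p.2) := by unfold Chk1; fun_prop
  have h2 : PT fun p : Gr × ((List (ℕ × ℕ) × List (ℕ × ℕ)) × List ℕ × List ℕ × List ℕ) =>
      decide (Chk2 p.1 p.2) := by unfold Chk2; fun_prop
  have h3 : PT fun p : Gr × ((List (ℕ × ℕ) × List (ℕ × ℕ)) × List ℕ × List ℕ × List ℕ) =>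
      decide (Chk3 p.1 p.2) := by unfold Chk3; fun_prop
  unfold Check
  exact PT.decide_and h1 (PT.decide_and h2 h3)

theorem hasDec_inNP : InNP HasDec := by
  refine InNP.of_cert' (γ := (List (ℕ × ℕ) × List (ℕ × ℕ)) × List ℕ × List ℕ × List ℕ) Check
    (i := fun _ _ => inferInstance)
    (fun a => ((a.n * a.n * (6 * a.n + 6) + 2) + (a.n * a.n * (6 * a.n + 6) + 2) + 1) +
      ((a.n * (3 * a.n + 3) + 2) + ((a.n * (3 * a.n + 3) + 2) + (a.n * (3 * a.n + 3) + 2) + 1) + 1) + 1)
    pt_check (by fun_prop) (fun a c h => ?_) fun a h => ?_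
  · obtain ⟨⟨h0, h1, h2⟩, ⟨h3, h4⟩, h5, h6⟩ := h
    obtain ⟨⟨L₁, L₂⟩, d₁, d₂, d₃⟩ := c
    simp only at h1 h2 h3 h4 h5 h6
    let r : Fin a.n := ⟨0, by omega⟩
    have hr : ∀ v : Fin a.n, v ≠ r → v.1 ≠ 0 := fun v h e => h (Fin.ext e)
    refine ⟨fun u v => (u.1, v.1) ∈ L₁, fun u v => (u.1, v.1) ∈ L₂,
      fun u v h => ⟨(h1 _ h).1, fun e => (h1 _ h).2 (congrArg Fin.val e)⟩,
      fun u v h => ⟨(h2 _ h).1, fun e => (h2 _ h).2.1 (congrArg Fin.val e)⟩,
      fun u v h => (h2 _ h.2).2.2 h.1, (antistrong_iff r).2 ⟨?_, ?_, fun v => ?_⟩, (strong_iff r).2 ⟨?_, ?_⟩⟩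
    · rw [Nat.card_eq_fintype_card, Fintype.card_fin]
      exact h0
    · refine reach_of_rank (fun v => d₁.getD v.1 0) fun v hv => ?_
      obtain ⟨u, hu, h7, w, hw, h8, h9⟩ := (h4 v v.2).resolve_left (hr v hv)
      exact ⟨⟨u, hu⟩, h7, ⟨w, hw⟩, h8, h9⟩
    · obtain ⟨w, hw, h7⟩ := h3 v v.2
      exact ⟨⟨w, hw⟩, h7⟩
    · refine reach_of_rank (fun v => d₂.getD v.1 0) fun v hv => ?_
      obtain ⟨u, hu, h7, h8⟩ := (h5 v v.2).resolve_left (hr v hv)
      exact ⟨⟨u, hu⟩, h7, h8⟩
    · refine reach_of_rank (fun v => d₃.getD v.1 0) fun v hv => ?_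
      obtain ⟨u, hu, h7, h8⟩ := (h6 v v.2).resolve_left (hr v hv)
      exact ⟨⟨u, hu⟩, h7, h8⟩
  · obtain ⟨A₁, A₂, h1, h2, h3, h4, h5⟩ := h
    classical
    have h0 : 3 ≤ a.n := by
      have := h4.1
      rwa [Nat.card_eq_fintype_card, Fintype.card_fin] at this
    let r : Fin a.n := ⟨0, by omega⟩
    rw [antistrong_iff r] at h4
    rw [strong_iff r] at h5
    obtain ⟨d₁, k1, l1⟩ := exists_rank h4.2.1
    obtain ⟨d₂, k2, l2⟩ := exists_rank h5.1
    obtain ⟨d₃, k3, l3⟩ := exists_rank h5.2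
    rw [Nat.card_eq_fintype_card, Fintype.card_fin] at k1 k2 k3
    let L : (Fin a.n → Fin a.n → Prop) → List (ℕ × ℕ) := fun A => (List.finRange a.n ×ˢ List.finRange a.n).filterMap
      fun p => if A p.1 p.2 then some (p.1.1, p.2.1) else none
    have hL : ∀ A, ∀ u v : Fin a.n, (u.1, v.1) ∈ L A ↔ A u v := by
      intro A u v
      simp only [L, List.mem_filterMap, List.mem_product, List.mem_finRange, true_and, Prod.exists, and_self]
      constructor
      · rintro ⟨x, y, h⟩
        split at h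
        · rename_i h5
          simp only [Option.some.injEq, Prod.mk.injEq] at h
          rwa [Fin.ext h.1, Fin.ext h.2] at h5
        · simp at h
      · exact fun h => ⟨u, v, by rw [if_pos h]⟩
    have hL' : ∀ A, ∀ e ∈ L A, ∃ u v : Fin a.n, e = (u.1, v.1) ∧ A u v := by
      intro A e he
      simp only [L, List.mem_filterMap, List.mem_product, List.mem_finRange, true_and, Prod.exists, and_self] at he
      obtain ⟨x, y, h⟩ := he
      split at h
      · rename_i h5
        simp only [Option.some.injEq] at h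
        exact ⟨x, y, h.symm, h5⟩
      · simp at h
    have hsL : ∀ A, size (L A) ≤ a.n * a.n * (6 * a.n + 6) + 2 := by
      intro A
      refine (size_list_le (B := 6 * a.n + 5) fun e he => ?_).trans ?_
      · obtain ⟨u, v, rfl, -⟩ := hL' A e he
        have h5 := size_nat_le u.1
        have h6 := size_nat_le v.1
        have := u.2
        have := v.2
        rw [size_pair]
        omega
      · refine Nat.add_le_add_right (Nat.mul_le_mul_right _ ?_) 2
        refine (List.length_filterMap_le _ _).trans ?_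
        rw [List.length_product, List.length_finRange]
    let D : (Fin a.n → ℕ) → List ℕ := fun d => (List.finRange a.n).map d
    have hD : ∀ d, ∀ v : Fin a.n, (D d).getD v.1 0 = d v := by
      intro d v
      simp [D, List.getD_eq_getElem?_getD]
    have hsD : ∀ d : Fin a.n → ℕ, (∀ v, d v ≤ a.n) → size (D d) ≤ a.n * (3 * a.n + 3) + 2 := by
      intro d hd
      refine (size_list_le (B := 3 * a.n + 2) fun e he => ?_).trans ?_
      · obtain ⟨i, -, rfl⟩ := List.mem_map.1 he
        have h5 := size_nat_le (d i)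
        have := hd i
        omega
      · rw [List.length_map, List.length_finRange]
    refine ⟨((L A₁, L A₂), D d₁, D d₂, D d₃), ?_, ⟨h0, ?_, ?_⟩, ⟨?_, ?_⟩, ?_, ?_⟩
    · rw [size_pair, size_pair, size_pair, size_pair]
      have := hsL A₁
      have := hsL A₂
      have := hsD d₁ k1
      have := hsD d₂ k2
      have := hsD d₃ k3
      omega
    · intro e he
      obtain ⟨u, v, rfl, h5⟩ := hL' _ e he
      exact ⟨(h1 u v h5).1, fun e => (h1 u v h5).2 (Fin.ext e)⟩
    · intro e he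
      obtain ⟨u, v, rfl, h5⟩ := hL' _ e he
      exact ⟨(h2 u v h5).1, fun e => (h2 u v h5).2 (Fin.ext e), fun h => h3 u v ⟨(hL _ _ _).1 h, h5⟩⟩
    · intro v hv
      obtain ⟨w, hw⟩ := h4.2.2 ⟨v, hv⟩
      exact ⟨w, w.2, (hL _ _ _).2 hw⟩
    · intro v hv
      by_cases h7 : v = 0
      · exact .inl h7
      obtain ⟨u, hu, w, hw, hw'⟩ := l1 ⟨v, hv⟩ (fun e => h7 (congrArg Fin.val e))
      refine .inr ⟨u, u.2, ?_, w, w.2, (hL _ _ _).2 hw, (hL _ ⟨v, hv⟩ _).2 hw'⟩
      rw [hD, hD d₁ ⟨v, hv⟩]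
      exact hu
    · intro v hv
      by_cases h7 : v = 0
      · exact .inl h7
      obtain ⟨u, hu, hw⟩ := l2 ⟨v, hv⟩ (fun e => h7 (congrArg Fin.val e))
      refine .inr ⟨u, u.2, ?_, (hL _ _ ⟨v, hv⟩).2 hw⟩
      rw [hD, hD d₂ ⟨v, hv⟩]
      exact hu
    · intro v hv
      by_cases h7 : v = 0
      · exact .inl h7
      obtain ⟨u, hu, hw⟩ := l3 ⟨v, hv⟩ (fun e => h7 (congrArg Fin.val e))
      refine .inr ⟨u, u.2, ?_, (hL _ ⟨v, hv⟩ _).2 hw⟩
      rw [hD, hD d₃ ⟨v, hv⟩]
      exact hu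

end Pool.Agent.Run7.h878.AS
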