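import Pool.Agent.Run7.h878.AS.Defs

/-!
# NP-hardness

The digraph has four vertices `(0, 0, 0), …, (0, 3, 0)` that form a complete digraph, and for every variable `x` a cyclic
sequence of vertices `(1, x, i)` and `(2, x, i)` with arcs from `(1, x, i)` and `(1, x, i + 1)` to `(2, x, i)`. The
antistrong part needs exactly one of the two arcs into `(2, x, i)` and all arcs into `(0, 0, 0)`, the strong part needs
the other arc, so that the strong part contains all arcs from `(1, x, i)` to `(2, x, i)` (`x` is false) or all arcs from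
`(1, x, i + 1)` to `(2, x, i)` (`x` is true). The slots of a clause are linked in such a way that the strong part contains
a closed cycle if all literals of the clause are false.
-/

namespace Pool.Agent.Run7.h878.AS

open Pool.Agent.Lib.CX Relation

variable (φ : List (Cl3 ℕ))

abbrev T := ℕ × ℕ × ℕ

/-- number of slots -/
abbrev sl : ℕ := 3 * φ.length
/-- length of the sequences -/
abbrev K : ℕ := 2 * (3 * φ.length)

/-- the literals of all clauses -/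
def fl : List (ℕ × Bool) := φ.flatMap fun C => [C.1, C.2.1, C.2.2]

/-- the literal of a slot -/
def lit (o : ℕ) : ℕ × Bool := (fl φ).getD o (0, true)

/-- the next slot of the same clause -/
def nxt (o : ℕ) : ℕ := 3 * (o / 3) + (o + 1) % 3

/-- the tail of the slot `o` -/
def tl (o : ℕ) : T := (1, (lit φ o).1, 2 * o + (!(lit φ o).2).toNat)

/-- the head of the slot `o` -/
def hd (o : ℕ) : T := (2, (lit φ o).1, 2 * o)

def grid : List (ℕ × ℕ) := List.range (sl φ) ×ˢ List.range (K φ)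

/-- the vertices -/
def vs : List T :=
  ((List.range 4).map fun a => (0, a, 0)) ++ (grid φ).flatMap fun p => [(1, p), (2, p)]

/-- the arcs -/
def es : List (T × T) :=
  ((grid φ).flatMap fun p => [((1, p), (2, p)), ((1, p.1, (p.2 + 1) % K φ), (2, p)), ((1, p), (0, 0, 0)),
    ((2, p), (0, 0, 0)), ((0, 1, 0), (1, p))]) ++
    ((((grid φ).filter fun p => decide ((1, p) ≠ tl φ (p.2 / 2))).map fun p => ((0, 0, 0), (1, p))) ++
      ((((grid φ).filter fun p => decide ((2, p) ≠ hd φ (p.2 / 2))).map fun p => ((2, p), (0, 1, 0))) ++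
        (((List.range (sl φ)).map fun o => (hd φ o, tl φ (nxt o))) ++
          ((List.range 4 ×ˢ List.range 4).filter fun p => decide (p.1 ≠ p.2)).map fun p =>
            ((0, p.1, 0), (0, p.2, 0)))))

theorem mem_grid (p : ℕ × ℕ) : p ∈ grid φ ↔ p.1 < sl φ ∧ p.2 < K φ := by
  obtain ⟨i, j⟩ := p
  rw [grid, List.mem_product, List.mem_range, List.mem_range]

theorem mem_vs (x : T) : x ∈ vs φ ↔ (∃ a < 4, x = (0, a, 0)) ∨
    ∃ v < sl φ, ∃ i < K φ, x = (1, v, i) ∨ x = (2, v, i) := by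
  rw [vs, List.mem_append]
  refine or_congr ?_ ?_
  · simp only [List.mem_map, List.mem_range, eq_comm]
  · simp only [List.mem_flatMap, List.mem_cons, List.not_mem_nil, or_false]
    constructor
    · rintro ⟨⟨v, i⟩, h1, h2⟩
      rw [mem_grid] at h1
      exact ⟨v, h1.1, i, h1.2, h2⟩
    · rintro ⟨v, h1, i, h2, h3⟩
      exact ⟨(v, i), (mem_grid _ _).2 ⟨h1, h2⟩, h3⟩

theorem mem_es (x y : T) : (x, y) ∈ es φ ↔
    (∃ v < sl φ, ∃ i < K φ, (x = (1, v, i) ∧ y = (2, v, i)) ∨ (x = (1, v, (i + 1) % K φ) ∧ y = (2, v, i)) ∨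
      (x = (1, v, i) ∧ y = (0, 0, 0)) ∨ (x = (2, v, i) ∧ y = (0, 0, 0)) ∨ (x = (0, 1, 0) ∧ y = (1, v, i))) ∨
    (∃ v < sl φ, ∃ i < K φ, (1, v, i) ≠ tl φ (i / 2) ∧ x = (0, 0, 0) ∧ y = (1, v, i)) ∨
    (∃ v < sl φ, ∃ i < K φ, (2, v, i) ≠ hd φ (i / 2) ∧ x = (2, v, i) ∧ y = (0, 1, 0)) ∨
    (∃ o < sl φ, x = hd φ o ∧ y = tl φ (nxt o)) ∨
    ∃ a < 4, ∃ b < 4, a ≠ b ∧ x = (0, a, 0) ∧ y = (0, b, 0) := by
  rw [es, List.mem_append, List.mem_append, List.mem_append, List.mem_append]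
  refine or_congr ?_ (or_congr ?_ (or_congr ?_ (or_congr ?_ ?_)))
  · simp only [List.mem_flatMap, List.mem_cons, List.not_mem_nil, or_false, Prod.mk.injEq]
    constructor
    · rintro ⟨⟨v, i⟩, h1, h2⟩
      rw [mem_grid] at h1
      exact ⟨v, h1.1, i, h1.2, h2⟩
    · rintro ⟨v, h1, i, h2, h3⟩
      exact ⟨(v, i), (mem_grid _ _).2 ⟨h1, h2⟩, h3⟩
  · simp only [List.mem_map, List.mem_filter, decide_eq_true_eq, Prod.mk.injEq]
    constructor
    · rintro ⟨⟨v, i⟩, ⟨h1, h2⟩, h3, h4⟩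
      rw [mem_grid] at h1
      exact ⟨v, h1.1, i, h1.2, h2, h3.symm, h4.symm⟩
    · rintro ⟨v, h1, i, h2, h3, h4, h5⟩
      exact ⟨(v, i), ⟨(mem_grid _ _).2 ⟨h1, h2⟩, h3⟩, h4.symm, h5.symm⟩
  · simp only [List.mem_map, List.mem_filter, decide_eq_true_eq, Prod.mk.injEq]
    constructor
    · rintro ⟨⟨v, i⟩, ⟨h1, h2⟩, h3, h4⟩
      rw [mem_grid] at h1
      exact ⟨v, h1.1, i, h1.2, h2, h3.symm, h4.symm⟩
    · rintro ⟨v, h1, i, h2, h3, h4, h5⟩
      exact ⟨(v, i), ⟨(mem_grid _ _).2 ⟨h1, h2⟩, h3⟩, h4.symm, h5.symm⟩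
  · simp only [List.mem_map, List.mem_range, Prod.mk.injEq, eq_comm]
  · simp only [List.mem_map, List.mem_filter, decide_eq_true_eq, Prod.mk.injEq]
    constructor
    · rintro ⟨⟨a, b⟩, ⟨h1, h2⟩, h3, h4⟩
      rw [List.mem_product, List.mem_range, List.mem_range] at h1
      exact ⟨a, h1.1, b, h1.2, h2, h3.symm, h4.symm⟩
    · rintro ⟨a, h1, b, h2, h3, h4, h5⟩
      exact ⟨(a, b), ⟨List.mem_product.2 ⟨List.mem_range.2 h1, List.mem_range.2 h2⟩, h3⟩, h4.symm, h5.symm⟩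

theorem es_ne {x y : T} (h : (x, y) ∈ es φ) : x ≠ y := by
  rintro rfl
  rw [mem_es] at h
  rcases h with ⟨v, -, i, -, h | h | h | h | h⟩ | ⟨v, -, i, -, -, h⟩ | ⟨v, -, i, -, -, h⟩ | ⟨o, -, h⟩ |
    ⟨a, -, b, -, hab, h⟩
  all_goals first | (obtain ⟨rfl, h⟩ := h; simp [tl, hd] at h; done) | skip
  · obtain ⟨rfl, h⟩ := h
    simp [hab] at h

theorem fl_get : ∀ (φ : List (Cl3 ℕ)) (k : ℕ) (C : Cl3 ℕ), φ[k]? = some C →
    (fl φ)[3 * k]? = some C.1 ∧ (fl φ)[3 * k + 1]? = some C.2.1 ∧ (fl φ)[3 * k + 2]? = some C.2.2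
  | [], k, C, h => by simp at h
  | D :: φ, 0, C, h => by
    simp only [List.getElem?_cons_zero, Option.some.injEq] at h
    subst h
    simp [fl]
  | D :: φ, k + 1, C, h => by
    rw [List.getElem?_cons_succ] at h
    have := fl_get φ k C h
    have e : fl (D :: φ) = D.1 :: D.2.1 :: D.2.2 :: fl φ := by simp [fl]
    rw [e]
    have e1 : 3 * (k + 1) = 3 * k + 1 + 1 + 1 := by ring
    rw [e1]
    simp only [List.getElem?_cons_succ]
    exact this

theorem lit_get {k : ℕ} {C : Cl3 ℕ} (h : φ[k]? = some C) :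
    lit φ (3 * k) = C.1 ∧ lit φ (3 * k + 1) = C.2.1 ∧ lit φ (3 * k + 2) = C.2.2 := by
  obtain ⟨h1, h2, h3⟩ := fl_get φ k C h
  simp [lit, List.getD_eq_getElem?_getD, h1, h2, h3]

theorem toNat_le (b : Bool) : b.toNat ≤ 1 := by cases b <;> simp

theorem lit_lt (hφ : ∀ C ∈ φ, ∀ x ∈ C.vars, x < 3 * φ.length) {o : ℕ} (ho : o < sl φ) : (lit φ o).1 < sl φ := by
  have hk : o / 3 < φ.length := by unfold sl at ho; omega
  have h1 := lit_get φ (List.getElem?_eq_getElem hk)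
  have h2 := hφ _ (List.getElem_mem hk)
  have h3 : o = 3 * (o / 3) ∨ o = 3 * (o / 3) + 1 ∨ o = 3 * (o / 3) + 2 := by omega
  rcases h3 with h3 | h3 | h3 <;> rw [h3]
  · rw [h1.1]; exact h2 _ (by simp [Cl3.vars])
  · rw [h1.2.1]; exact h2 _ (by simp [Cl3.vars])
  · rw [h1.2.2]; exact h2 _ (by simp [Cl3.vars])

theorem tl_inj {o o' : ℕ} (h : tl φ o = tl φ o') : o = o' := by
  simp only [tl, Prod.mk.injEq, true_and] at h
  have := toNat_le (!(lit φ o).2)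
  have := toNat_le (!(lit φ o').2)
  omega

theorem nxt_inj {o o' : ℕ} (h : nxt o = nxt o') : o = o' := by unfold nxt at h; omega

theorem nxt_nxt (o : ℕ) : nxt (nxt (nxt o)) = o := by unfold nxt; omega

theorem nxt_lt {o : ℕ} (h : o < sl φ) : nxt o < sl φ := by unfold nxt; unfold sl at *; omega

theorem succ_mod_inj {K i j : ℕ} (hi : i < K) (hj : j < K) (h : (i + 1) % K = (j + 1) % K) : i = j := by
  have e : ∀ i, i < K → (i + 1 < K ∧ (i + 1) % K = i + 1) ∨ (i + 1 = K ∧ (i + 1) % K = 0) := by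
    intro i hi
    by_cases h1 : i + 1 < K
    · exact .inl ⟨h1, Nat.mod_eq_of_lt h1⟩
    · have h2 : i + 1 = K := by omega
      exact .inr ⟨h2, by rw [h2, Nat.mod_self]⟩
  rcases e i hi with h1 | h1 <;> rcases e j hj with h2 | h2 <;> omega

theorem succ_mod_surj {K i : ℕ} (hi : i < K) : ∃ j < K, (j + 1) % K = i ∧ (j + 1 = i ∨ (i = 0 ∧ j = K - 1)) := by
  rcases Nat.eq_zero_or_pos i with rfl | h
  · exact ⟨K - 1, by omega, by rw [Nat.sub_add_cancel (by omega), Nat.mod_self], .inr ⟨rfl, rfl⟩⟩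
  · exact ⟨i - 1, by omega, by rw [Nat.sub_add_cancel h, Nat.mod_eq_of_lt hi], .inl (Nat.sub_add_cancel h)⟩

theorem succ_mod_ne {K i : ℕ} (hi : i < K) (hK : 2 ≤ K) : (i + 1) % K ≠ i := by
  by_cases h1 : i + 1 < K
  · rw [Nat.mod_eq_of_lt h1]; omega
  · have h2 : i + 1 = K := by omega
    rw [h2, Nat.mod_self]; omega

theorem tl_mem (hφ : ∀ C ∈ φ, ∀ x ∈ C.vars, x < 3 * φ.length) {o : ℕ} (ho : o < sl φ) : tl φ o ∈ vs φ := by
  refine (mem_vs _ _).2 (.inr ⟨_, lit_lt φ hφ ho, 2 * o + (!(lit φ o).2).toNat, ?_, .inl rfl⟩)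
  have := toNat_le (!(lit φ o).2)
  unfold K
  unfold sl at ho
  omega

theorem hd_mem (hφ : ∀ C ∈ φ, ∀ x ∈ C.vars, x < 3 * φ.length) {o : ℕ} (ho : o < sl φ) : hd φ o ∈ vs φ := by
  refine (mem_vs _ _).2 (.inr ⟨_, lit_lt φ hφ ho, 2 * o, ?_, .inr rfl⟩)
  unfold K
  unfold sl at ho
  omega

/-- arcs into `(2, v, i)` -/
theorem in_Y {w : T} {v i : ℕ} (h : (w, (2, v, i)) ∈ es φ) :
    v < sl φ ∧ i < K φ ∧ (w = (1, v, i) ∨ w = (1, v, (i + 1) % K φ)) := by
  rw [mem_es] at h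
  rcases h with ⟨v', hv, i', hi, h | h | h | h | h⟩ | ⟨v', -, i', -, -, h⟩ | ⟨v', -, i', -, -, h⟩ | ⟨o, -, h⟩ |
    ⟨a, -, b, -, hab, h⟩
  all_goals first | (obtain ⟨-, h⟩ := h; simp [tl] at h; done) | skip
  · obtain ⟨rfl, h⟩ := h
    simp only [Prod.mk.injEq, true_and] at h
    obtain ⟨rfl, rfl⟩ := h
    exact ⟨hv, hi, .inl rfl⟩
  · obtain ⟨rfl, h⟩ := h
    simp only [Prod.mk.injEq, true_and] at h
    obtain ⟨rfl, rfl⟩ := h
    exact ⟨hv, hi, .inr rfl⟩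

/-- arcs into `tl (nxt o)` -/
theorem in_tl {w : T} {o : ℕ} (h : (w, tl φ (nxt o)) ∈ es φ) : w = (0, 1, 0) ∨ w = hd φ o := by
  rw [mem_es] at h
  rcases h with ⟨v', hv, i', hi, h | h | h | h | h⟩ | ⟨v', -, i', -, hne, h⟩ | ⟨v', -, i', -, -, h⟩ | ⟨o', -, h⟩ |
    ⟨a, -, b, -, hab, h⟩
  all_goals first | (obtain ⟨-, h⟩ := h; simp [tl] at h; done) | skip
  · exact .inl h.1
  · exfalso
    obtain ⟨-, h⟩ := h
    apply hne
    rw [← h]
    congr 1
    simp only [tl, Prod.mk.injEq, true_and] at h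
    have := toNat_le (!(lit φ (nxt o)).2)
    omega
  · obtain ⟨rfl, h⟩ := h
    rw [nxt_inj (tl_inj φ h)]
    exact .inr rfl

/-- arcs from `(1, v, i)` -/
theorem out_T {w : T} {v i : ℕ} (h : ((1, v, i), w) ∈ es φ) :
    w = (0, 0, 0) ∨ ∃ j < K φ, w = (2, v, j) ∧ (i = j ∨ i = (j + 1) % K φ) := by
  rw [mem_es] at h
  rcases h with ⟨v', hv, i', hi, h | h | h | h | h⟩ | ⟨v', -, i', -, hne, h⟩ | ⟨v', -, i', -, -, h⟩ | ⟨o', -, h⟩ |
    ⟨a, -, b, -, hab, h⟩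
  all_goals first | (obtain ⟨h, -⟩ := h; simp [hd] at h; done) | skip
  · obtain ⟨h, rfl⟩ := h
    simp only [Prod.mk.injEq, true_and] at h
    obtain ⟨rfl, rfl⟩ := h
    exact .inr ⟨_, hi, rfl, .inl rfl⟩
  · obtain ⟨h, rfl⟩ := h
    simp only [Prod.mk.injEq, true_and] at h
    obtain ⟨rfl, rfl⟩ := h
    exact .inr ⟨_, hi, rfl, .inr rfl⟩
  · exact .inl h.2

/-- arcs from `hd o` -/
theorem out_hd {w : T} {o : ℕ} (h : (hd φ o, w) ∈ es φ) : w = (0, 0, 0) ∨ w = tl φ (nxt o) := by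
  rw [mem_es] at h
  rcases h with ⟨v', hv, i', hi, h | h | h | h | h⟩ | ⟨v', -, i', -, hne, h⟩ | ⟨v', -, i', -, hne, h⟩ | ⟨o', -, h⟩ |
    ⟨a, -, b, -, hab, h⟩
  all_goals first | (obtain ⟨h, -⟩ := h; simp [hd] at h; done) | skip
  · exact .inl h.2
  · exfalso
    obtain ⟨h, -⟩ := h
    apply hne
    rw [← h]
    congr 1
    simp only [hd, Prod.mk.injEq, true_and] at h
    omega
  · obtain ⟨h, rfl⟩ := h
    simp only [hd, Prod.mk.injEq, true_and] at h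
    obtain rfl : o = o' := by omega
    exact .inr rfl

/-- the named digraph -/
def R (x y : {x // x ∈ vs φ}) : Prop := (x.1, y.1) ∈ es φ

/-! ### from a decomposition to an assignment -/

theorem backward (hφ : ∀ C ∈ φ, ∀ x ∈ C.vars, x < 3 * φ.length) (h : Dec (R φ)) : Sat3 φ := by
  obtain ⟨A₁, A₂, a1, a2, a3, ⟨-, a4⟩, a5⟩ := h
  let B₁ : T → T → Prop := fun x y => ∃ hx hy, A₁ ⟨x, hx⟩ ⟨y, hy⟩
  let B₂ : T → T → Prop := fun x y => ∃ hx hy, A₂ ⟨x, hx⟩ ⟨y, hy⟩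
  have p1 : ∀ x y, B₁ x y → (x, y) ∈ es φ := by
    rintro x y ⟨hx, hy, h⟩
    exact (a1 _ _ h).1
  have p2 : ∀ x y, B₂ x y → (x, y) ∈ es φ := by
    rintro x y ⟨hx, hy, h⟩
    exact (a2 _ _ h).1
  have p3 : ∀ x y, B₁ x y → B₂ x y → False := by
    rintro x y ⟨hx, hy, h⟩ ⟨hx', hy', h'⟩
    exact a3 _ _ ⟨h, h'⟩
  have p4 : ∀ x ∈ vs φ, ∀ y ∈ vs φ, x ≠ y → FwdTrail B₁ x y := by
    intro x hx y hy hxy
    obtain ⟨l, hl, hn⟩ := a4 ⟨x, hx⟩ ⟨y, hy⟩ (fun e => hxy (congrArg Subtype.val e))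
    exact ⟨l.map (Prod.map Subtype.val Subtype.val), hl.map (B := B₁) Subtype.val (fun u v h => ⟨u.2, v.2, h⟩),
      hn.map (Subtype.val_injective.prodMap Subtype.val_injective)⟩
  have p5 : ∀ x ∈ vs φ, ∀ y ∈ vs φ, ReflTransGen B₂ x y := by
    intro x hx y hy
    exact (a5 ⟨x, hx⟩ ⟨y, hy⟩).lift (p := B₂) Subtype.val (fun u v h => ⟨u.2, v.2, h⟩)
  have q0 : ((0, 0, 0) : T) ∈ vs φ := (mem_vs _ _).2 (.inl ⟨0, by omega, rfl⟩)
  have q1 : ((0, 1, 0) : T) ∈ vs φ := (mem_vs _ _).2 (.inl ⟨1, by omega, rfl⟩)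
  have in1 : ∀ y ∈ vs φ, ∃ w, B₁ w y := by
    intro y hy
    have h1 : ∃ x ∈ vs φ, x ≠ y := by
      by_cases h : y = (0, 0, 0)
      · exact ⟨_, q1, by rw [h]; simp⟩
      · exact ⟨_, q0, fun e => h e.symm⟩
    obtain ⟨x, hx, hxy⟩ := h1
    obtain ⟨l, hl, -⟩ := p4 x hx y hy hxy
    obtain ⟨w, -, hw⟩ := hl.exists_tail
    exact ⟨w, hw⟩
  have in2 : ∀ y ∈ vs φ, ∃ w, B₂ w y := by
    intro y hy
    have h1 : ∃ x ∈ vs φ, x ≠ y := by
      by_cases h : y = (0, 0, 0)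
      · exact ⟨_, q1, by rw [h]; simp⟩
      · exact ⟨_, q0, fun e => h e.symm⟩
    obtain ⟨x, hx, hxy⟩ := h1
    rcases (p5 x hx y hy).cases_tail with h | ⟨w, -, hw⟩
    · exact absurd h.symm hxy
    · exact ⟨w, hw⟩
  have out2 : ∀ x ∈ vs φ, ∃ w, B₂ x w := by
    intro x hx
    have h1 : ∃ y ∈ vs φ, x ≠ y := by
      by_cases h : x = (0, 0, 0)
      · exact ⟨_, q1, by rw [h]; simp⟩
      · exact ⟨_, q0, fun e => h e⟩
    obtain ⟨y, hy, hxy⟩ := h1
    rcases (p5 x hx y hy).cases_head with h | ⟨w, hw, -⟩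
    · exact absurd h hxy
    · exact ⟨w, hw⟩
  -- a head with two possible tails
  have key : ∀ y ∈ vs φ, ∀ a b, (∀ w, (w, y) ∈ es φ → w = a ∨ w = b) →
      (B₁ a y ∧ B₂ b y ∧ ¬ B₁ b y ∧ ¬ B₂ a y) ∨ (B₁ b y ∧ B₂ a y ∧ ¬ B₁ a y ∧ ¬ B₂ b y) := by
    intro y hy a b hab
    obtain ⟨w, hw⟩ := in1 y hy
    obtain ⟨w', hw'⟩ := in2 y hy
    rcases hab w (p1 _ _ hw) with rfl | rfl <;> rcases hab w' (p2 _ _ hw') with rfl | rfl
    · exact absurd hw' (fun h => p3 _ _ hw h)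
    · exact .inl ⟨hw, hw', fun h => p3 _ _ h hw', fun h => p3 _ _ hw h⟩
    · exact .inr ⟨hw, hw', fun h => p3 _ _ h hw', fun h => p3 _ _ hw h⟩
    · exact absurd hw' (fun h => p3 _ _ hw h)
  have keyY : ∀ v < sl φ, ∀ i < K φ,
      (B₁ (1, v, i) (2, v, i) ∧ B₂ (1, v, (i + 1) % K φ) (2, v, i) ∧ ¬ B₁ (1, v, (i + 1) % K φ) (2, v, i) ∧
        ¬ B₂ (1, v, i) (2, v, i)) ∨
      (B₁ (1, v, (i + 1) % K φ) (2, v, i) ∧ B₂ (1, v, i) (2, v, i) ∧ ¬ B₁ (1, v, i) (2, v, i) ∧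
        ¬ B₂ (1, v, (i + 1) % K φ) (2, v, i)) := fun v hv i hi =>
    key _ ((mem_vs _ _).2 (.inr ⟨v, hv, i, hi, .inr rfl⟩)) _ _ fun w hw => (in_Y φ hw).2.2
  have keyT : ∀ o < sl φ, (B₁ (0, 1, 0) (tl φ (nxt o)) ∧ B₂ (hd φ o) (tl φ (nxt o)) ∧
      ¬ B₁ (hd φ o) (tl φ (nxt o)) ∧ ¬ B₂ (0, 1, 0) (tl φ (nxt o))) ∨
      (B₁ (hd φ o) (tl φ (nxt o)) ∧ B₂ (0, 1, 0) (tl φ (nxt o)) ∧ ¬ B₁ (0, 1, 0) (tl φ (nxt o)) ∧
        ¬ B₂ (hd φ o) (tl φ (nxt o))) := fun o ho =>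
    key _ (tl_mem φ hφ (nxt_lt φ ho)) _ _ fun w hw => in_tl φ hw
  have uY : ∀ v i w w', B₁ w (2, v, i) → B₁ w' (2, v, i) → w = w' := by
    intro v i w w' hw hw'
    obtain ⟨hv, hi, h1⟩ := in_Y φ (p1 _ _ hw)
    obtain ⟨-, -, h2⟩ := in_Y φ (p1 _ _ hw')
    rcases keyY v hv i hi with ⟨-, -, h3, -⟩ | ⟨-, -, h3, -⟩ <;> rcases h1 with rfl | rfl <;>
      rcases h2 with rfl | rfl <;> first | rfl | exact absurd hw h3 | exact absurd hw' h3
  have uT : ∀ o < sl φ, ∀ w w', B₁ w (tl φ (nxt o)) → B₁ w' (tl φ (nxt o)) → w = w' := by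
    intro o ho w w' hw hw'
    have h1 := in_tl φ (p1 _ _ hw)
    have h2 := in_tl φ (p1 _ _ hw')
    rcases keyT o ho with ⟨-, -, h3, -⟩ | ⟨-, -, h3, -⟩ <;> rcases h1 with rfl | rfl <;>
      rcases h2 with rfl | rfl <;> first | rfl | exact absurd hw h3 | exact absurd hw' h3
  -- arcs into (0, 0, 0)
  have hub : ∀ x ∈ vs φ, x ≠ (0, 0, 0) →
      (∀ u, B₁ x u → u = (0, 0, 0) ∨ ∀ w w', B₁ w u → B₁ w' u → w = w') → B₁ x (0, 0, 0) := by
    intro x hx hx0 hu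
    obtain ⟨l, hl, hn⟩ := p4 x hx _ q0 hx0
    cases hl with
    | last h => exact h
    | step h1 h2 h3 =>
      rcases hu _ h1 with rfl | h4
      · exact h1
      · exfalso
        rw [h4 _ _ h1 h2] at hn
        simp at hn
  have hubT : ∀ v < sl φ, ∀ i < K φ, B₁ (1, v, i) (0, 0, 0) := by
    intro v hv i hi
    refine hub _ ((mem_vs _ _).2 (.inr ⟨v, hv, i, hi, .inl rfl⟩)) (by simp) fun u hu => ?_
    rcases out_T φ (p1 _ _ hu) with h | ⟨j, -, rfl, -⟩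
    · exact .inl h
    · exact .inr (uY _ _)
  have hubH : ∀ o < sl φ, B₁ (hd φ o) (0, 0, 0) := by
    intro o ho
    refine hub _ (hd_mem φ hφ ho) (by simp [hd]) fun u hu => ?_
    rcases out_hd φ (p1 _ _ hu) with h | rfl
    · exact .inl h
    · exact .inr (uT o ho)
  -- the arc from `hd o`
  have hdt : ∀ o < sl φ, B₂ (hd φ o) (tl φ (nxt o)) ∧ ∀ w, B₂ w (tl φ (nxt o)) → w = hd φ o := by
    intro o ho
    obtain ⟨w, hw⟩ := out2 _ (hd_mem φ hφ ho)
    rcases out_hd φ (p2 _ _ hw) with rfl | rfl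
    · exact (p3 _ _ (hubH o ho) hw).elim
    · refine ⟨hw, fun w' hw' => ?_⟩
      rcases keyT o ho with ⟨-, -, -, h3⟩ | ⟨-, -, -, h3⟩
      · rcases in_tl φ (p2 _ _ hw') with rfl | h
        · exact absurd hw' h3
        · exact h
      · exact absurd hw h3
  -- the states
  have step : ∀ v < sl φ, ∀ i < K φ, B₂ (1, v, i) (2, v, i) →
      B₂ (1, v, (i + 1) % K φ) (2, v, (i + 1) % K φ) := by
    intro v hv i hi h
    have hi' : (i + 1) % K φ < K φ := Nat.mod_lt _ (by omega)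
    obtain ⟨w, hw⟩ := out2 _ ((mem_vs φ (1, v, (i + 1) % K φ)).2 (.inr ⟨v, hv, _, hi', .inl rfl⟩))
    rcases out_T φ (p2 _ _ hw) with rfl | ⟨j, hj, rfl, h1 | h1⟩
    · exact (p3 _ _ (hubT v hv _ hi') hw).elim
    · rw [← h1] at hw
      exact hw
    · obtain rfl := succ_mod_inj hi hj h1
      exfalso
      rcases keyY v hv i hi with ⟨-, -, -, h3⟩ | ⟨-, -, -, h3⟩
      · exact h3 h
      · exact h3 hw
  have up : ∀ v < sl φ, ∀ i j, i ≤ j → j < K φ → B₂ (1, v, i) (2, v, i) → B₂ (1, v, j) (2, v, j) := by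
    intro v hv i j hij
    induction j, hij using Nat.le_induction with
    | base => exact fun _ h => h
    | succ j hij ih =>
      intro hj h
      have h1 := step v hv j (by omega) (ih (by omega) h)
      rwa [Nat.mod_eq_of_lt hj] at h1
  have all : ∀ v < sl φ, ∀ i < K φ, B₂ (1, v, i) (2, v, i) ↔ B₂ (1, v, 0) (2, v, 0) := by
    intro v hv i hi
    refine ⟨fun h => ?_, fun h => up v hv 0 i (by omega) hi h⟩
    have h1 := step v hv (K φ - 1) (by omega) (up v hv i (K φ - 1) (by omega) (by omega) h)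
    rwa [Nat.sub_add_cancel (by omega), Nat.mod_self] at h1
  classical
  let a : ℕ → Bool := fun x => decide (¬ B₂ (1, x, 0) (2, x, 0))
  -- a false literal
  have fal : ∀ o < sl φ, a (lit φ o).1 ≠ (lit φ o).2 → ∀ w, B₂ w (hd φ o) → w = tl φ o := by
    intro o ho hne w hw
    obtain ⟨hv, hi, h1⟩ := in_Y φ (v := (lit φ o).1) (i := 2 * o) (p2 _ _ hw)
    have h2 := all _ hv _ hi
    have h3 := keyY _ hv _ hi
    have h4 : (2 * o + 1) % K φ = 2 * o + 1 := Nat.mod_eq_of_lt (by unfold K; unfold sl at ho; omega)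
    rw [h4] at h1 h3
    unfold tl
    rcases hs : (lit φ o).2 with _ | _
    · rw [hs] at hne
      simp only [a, ne_eq, Bool.not_eq_false, decide_eq_true_eq] at hne
      rcases h1 with rfl | rfl
      · exact absurd (h2.1 hw) hne
      · simp
    · rw [hs] at hne
      simp only [a, ne_eq, Bool.not_eq_true, decide_eq_false_iff_not, not_not] at hne
      rcases h1 with rfl | rfl
      · simp
      · exfalso
        rcases h3 with ⟨-, -, -, h5⟩ | ⟨-, -, -, h5⟩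
        · exact h5 (h2.2 hne)
        · exact h5 hw
  refine ⟨a, fun C hC => ?_⟩
  obtain ⟨k, hk, rfl⟩ := List.getElem_of_mem hC
  by_contra hno
  have hl := lit_get φ (List.getElem?_eq_getElem hk)
  have hfalse : ∀ o, o / 3 = k → a (lit φ o).1 ≠ (lit φ o).2 := by
    intro o ho e
    apply hno
    have h3 : o = 3 * k ∨ o = 3 * k + 1 ∨ o = 3 * k + 2 := by omega
    rcases h3 with rfl | rfl | rfl
    · rw [hl.1] at e; simp [Cl3.ok, e]
    · rw [hl.2.1] at e; simp [Cl3.ok, e]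
    · rw [hl.2.2] at e; simp [Cl3.ok, e]
  have clos : ∀ z, (∃ o, o / 3 = k ∧ (z = tl φ o ∨ z = hd φ o)) → ∀ w, B₂ w z →
      ∃ o, o / 3 = k ∧ (w = tl φ o ∨ w = hd φ o) := by
    rintro z ⟨o, ho, rfl | rfl⟩ w hw
    · have h1 : nxt (nxt o) / 3 = k := by unfold nxt; omega
      refine ⟨_, h1, .inr ((hdt _ (by unfold sl; omega)).2 _ ?_)⟩
      rw [nxt_nxt]
      exact hw
    · exact ⟨o, ho, .inl (fal o (by unfold sl; omega) (hfalse o ho) w hw)⟩
  have h0 : ∀ z, ReflTransGen B₂ (0, 0, 0) z → (∃ o, o / 3 = k ∧ (z = tl φ o ∨ z = hd φ o)) → False := by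
    intro z hz
    induction hz with
    | refl =>
      rintro ⟨o, -, h | h⟩
      · simp [tl] at h
      · simp [hd] at h
    | tail _ h2 ih => exact fun h => ih (clos _ h _ h2)
  exact h0 _ (p5 _ q0 _ (tl_mem φ hφ (show 3 * k < sl φ by unfold sl; omega))) ⟨3 * k, by omega, .inl rfl⟩

/-! ### from an assignment to a decomposition -/

/-- is the arc in the strong part? -/
def cl (v : ℕ → Bool) (x y : T) : Bool :=
  if x.1 = 0 then (if y.1 = 0 then decide (y.2.1 = (x.2.1 + 1) % 4) else decide (x.2.1 = 0))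
  else if x.1 = 1 then (if y.1 = 2 then (decide (x.2.2 = y.2.2) != v x.2.1) else false)
  else (if y.1 = 0 then decide (y.2.1 = 1) else true)

theorem forward (hφ : ∀ C ∈ φ, ∀ x ∈ C.vars, x < 3 * φ.length) (hs : Sat3 φ) : Dec (R φ) := by
  obtain ⟨v, hv⟩ := hs
  have q : ∀ a < 4, ((0, a, 0) : T) ∈ vs φ := fun a ha => (mem_vs _ _).2 (.inl ⟨a, ha, rfl⟩)
  have mT : ∀ x < sl φ, ∀ i < K φ, ((1, x, i) : T) ∈ vs φ := fun x hx i hi =>
    (mem_vs _ _).2 (.inr ⟨x, hx, i, hi, .inl rfl⟩)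
  have mY : ∀ x < sl φ, ∀ i < K φ, ((2, x, i) : T) ∈ vs φ := fun x hx i hi =>
    (mem_vs _ _).2 (.inr ⟨x, hx, i, hi, .inr rfl⟩)
  let E : Bool → T → T → Prop := fun b x y => x ∈ vs φ ∧ y ∈ vs φ ∧ (x, y) ∈ es φ ∧ cl v x y = b
  let A : Bool → {x // x ∈ vs φ} → {x // x ∈ vs φ} → Prop := fun b x y => R φ x y ∧ cl v x.1 y.1 = b
  have eQ : ∀ a < 4, ∀ b < 4, a ≠ b → E (decide (b = (a + 1) % 4)) (0, a, 0) (0, b, 0) := by
    intro a ha b hb hab
    refine ⟨q a ha, q b hb, (mem_es _ _ _).2 (.inr (.inr (.inr (.inr ⟨a, ha, b, hb, hab, rfl, rfl⟩)))), ?_⟩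
    simp [cl]
  have eTY : ∀ x < sl φ, ∀ i < K φ, E (!v x) (1, x, i) (2, x, i) := by
    intro x hx i hi
    refine ⟨mT x hx i hi, mY x hx i hi, (mem_es _ _ _).2 (.inl ⟨x, hx, i, hi, .inl ⟨rfl, rfl⟩⟩), ?_⟩
    simp [cl]
  have eTY' : ∀ x < sl φ, ∀ i < K φ, E (v x) (1, x, (i + 1) % K φ) (2, x, i) := by
    intro x hx i hi
    have hi' : (i + 1) % K φ < K φ := Nat.mod_lt _ (by omega)
    refine ⟨mT x hx _ hi', mY x hx i hi, (mem_es _ _ _).2 (.inl ⟨x, hx, i, hi, .inr (.inl ⟨rfl, rfl⟩)⟩), ?_⟩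
    have := succ_mod_ne hi (by unfold K at *; omega)
    simp [cl, this]
  have eT0 : ∀ x < sl φ, ∀ i < K φ, E false (1, x, i) (0, 0, 0) := by
    intro x hx i hi
    refine ⟨mT x hx i hi, q 0 (by omega), (mem_es _ _ _).2 (.inl ⟨x, hx, i, hi, .inr (.inr (.inl ⟨rfl, rfl⟩))⟩), ?_⟩
    simp [cl]
  have eY0 : ∀ x < sl φ, ∀ i < K φ, E false (2, x, i) (0, 0, 0) := by
    intro x hx i hi
    refine ⟨mY x hx i hi, q 0 (by omega),
      (mem_es _ _ _).2 (.inl ⟨x, hx, i, hi, .inr (.inr (.inr (.inl ⟨rfl, rfl⟩)))⟩), ?_⟩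
    simp [cl]
  have e1T : ∀ x < sl φ, ∀ i < K φ, E false (0, 1, 0) (1, x, i) := by
    intro x hx i hi
    refine ⟨q 1 (by omega), mT x hx i hi,
      (mem_es _ _ _).2 (.inl ⟨x, hx, i, hi, .inr (.inr (.inr (.inr ⟨rfl, rfl⟩)))⟩), ?_⟩
    simp [cl]
  have e0T : ∀ x < sl φ, ∀ i < K φ, (1, x, i) ≠ tl φ (i / 2) → E true (0, 0, 0) (1, x, i) := by
    intro x hx i hi hne
    refine ⟨q 0 (by omega), mT x hx i hi, (mem_es _ _ _).2 (.inr (.inl ⟨x, hx, i, hi, hne, rfl, rfl⟩)), ?_⟩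
    simp [cl]
  have eY1 : ∀ x < sl φ, ∀ i < K φ, (2, x, i) ≠ hd φ (i / 2) → E true (2, x, i) (0, 1, 0) := by
    intro x hx i hi hne
    refine ⟨mY x hx i hi, q 1 (by omega), (mem_es _ _ _).2 (.inr (.inr (.inl ⟨x, hx, i, hi, hne, rfl, rfl⟩))), ?_⟩
    simp [cl]
  have eht : ∀ o < sl φ, E true (hd φ o) (tl φ (nxt o)) := by
    intro o ho
    refine ⟨hd_mem φ hφ ho, tl_mem φ hφ (nxt_lt φ ho),
      (mem_es _ _ _).2 (.inr (.inr (.inr (.inl ⟨o, ho, rfl, rfl⟩)))), ?_⟩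
    simp [cl, tl, hd]
  have EA : ∀ b x y (h : E b x y), A b ⟨x, h.1⟩ ⟨y, h.2.1⟩ := fun b x y h => ⟨h.2.2.1, h.2.2.2⟩
  -- reachability
  have lift : ∀ x y, ReflTransGen (E true) x y → ∀ hx : x ∈ vs φ, ∃ hy : y ∈ vs φ,
      ReflTransGen (A true) ⟨x, hx⟩ ⟨y, hy⟩ := by
    intro x y h hx
    induction h with
    | refl => exact ⟨hx, .refl⟩
    | tail _ h2 ih =>
      obtain ⟨hy, h3⟩ := ih
      exact ⟨h2.2.1, h3.tail (EA _ _ _ h2)⟩
  have q01 := eQ 0 (by omega) 1 (by omega) (by omega)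
  have q12 := eQ 1 (by omega) 2 (by omega) (by omega)
  have q23 := eQ 2 (by omega) 3 (by omega) (by omega)
  have q30 := eQ 3 (by omega) 0 (by omega) (by omega)
  simp only [Nat.reduceAdd, Nat.reduceMod, decide_true] at q01 q12 q23 q30
  have G3 : ReflTransGen (E true) (0, 3, 0) (0, 0, 0) := .single q30
  have G2 : ReflTransGen (E true) (0, 2, 0) (0, 0, 0) := .head q23 G3
  have G1 : ReflTransGen (E true) (0, 1, 0) (0, 0, 0) := .head q12 G2
  have F1 : ReflTransGen (E true) (0, 0, 0) (0, 1, 0) := .single q01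
  have F2 : ReflTransGen (E true) (0, 0, 0) (0, 2, 0) := F1.tail q12
  have F3 : ReflTransGen (E true) (0, 0, 0) (0, 3, 0) := F2.tail q23
  -- the arcs at the slots
  have hK : ∀ o < sl φ, 2 * o + 1 < K φ := fun o ho => by unfold K; unfold sl at ho; omega
  have ltrue : ∀ o < sl φ, v (lit φ o).1 = (lit φ o).2 →
      ReflTransGen (E true) (tl φ o) (0, 0, 0) ∧ ReflTransGen (E true) (0, 0, 0) (hd φ o) := by
    intro o ho e
    have hl := lit_lt φ hφ ho
    unfold tl hd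
    rcases hs : (lit φ o).2 with _ | _
    · rw [hs] at e
      simp only [Bool.not_false, Bool.toNat_true]
      constructor
      · have h1 := eTY _ hl _ (hK o ho)
        rw [e] at h1
        exact .head h1 (.head (eY1 _ hl _ (hK o ho) (by simp [hd]; omega)) G1)
      · have h1 := eTY _ hl (2 * o) (by have := hK o ho; omega)
        rw [e] at h1
        refine (ReflTransGen.single (e0T _ hl (2 * o) (by have := hK o ho; omega) ?_)).tail h1
        have : 2 * o / 2 = o := by omega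
        rw [this]
        simp [tl, hs]
    · rw [hs] at e
      simp only [Bool.not_true, Bool.toNat_false, Nat.add_zero]
      constructor
      · obtain ⟨j, hj, h1, h2⟩ := succ_mod_surj (show 2 * o < K φ by have := hK o ho; omega)
        have h3 := eTY' _ hl j hj
        rw [e, h1] at h3
        refine .head h3 (.head (eY1 _ hl _ hj ?_) G1)
        simp only [hd, ne_eq, Prod.mk.injEq, true_and, not_and]
        intro _
        have : K φ = 2 * (3 * φ.length) := rfl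
        omega
      · have h1 := eTY' _ hl (2 * o) (by have := hK o ho; omega)
        rw [e, Nat.mod_eq_of_lt (hK o ho)] at h1
        refine (ReflTransGen.single (e0T _ hl (2 * o + 1) (hK o ho) ?_)).tail h1
        have : (2 * o + 1) / 2 = o := by omega
        rw [this]
        simp [tl, hs]
  have lfalse : ∀ o < sl φ, v (lit φ o).1 ≠ (lit φ o).2 → E true (tl φ o) (hd φ o) := by
    intro o ho e
    have hl := lit_lt φ hφ ho
    unfold tl hd
    rcases hs : (lit φ o).2 with _ | _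
    · rw [hs] at e
      have h1 := eTY' _ hl (2 * o) (by have := hK o ho; omega)
      rw [Nat.mod_eq_of_lt (hK o ho)] at h1
      simp only [ne_eq, Bool.not_eq_false] at e
      rw [e] at h1
      simpa using h1
    · rw [hs] at e
      have h1 := eTY _ hl (2 * o) (by have := hK o ho; omega)
      simp only [ne_eq, Bool.not_eq_true] at e
      rw [e] at h1
      simpa using h1
  have cls : ∀ o < sl φ, v (lit φ o).1 = (lit φ o).2 ∨ v (lit φ (nxt o)).1 = (lit φ (nxt o)).2 ∨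
      v (lit φ (nxt (nxt o))).1 = (lit φ (nxt (nxt o))).2 := by
    intro o ho
    have hk : o / 3 < φ.length := by unfold sl at ho; omega
    have hl := lit_get φ (List.getElem?_eq_getElem hk)
    have hC := hv _ (List.getElem_mem hk)
    have h3 : (o = 3 * (o / 3) ∧ nxt o = 3 * (o / 3) + 1 ∧ nxt (nxt o) = 3 * (o / 3) + 2) ∨
        (o = 3 * (o / 3) + 1 ∧ nxt o = 3 * (o / 3) + 2 ∧ nxt (nxt o) = 3 * (o / 3)) ∨
        (o = 3 * (o / 3) + 2 ∧ nxt o = 3 * (o / 3) ∧ nxt (nxt o) = 3 * (o / 3) + 1) := by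
      unfold nxt; omega
    have h4 : v (lit φ (3 * (o / 3))).1 = (lit φ (3 * (o / 3))).2 ∨
        v (lit φ (3 * (o / 3) + 1)).1 = (lit φ (3 * (o / 3) + 1)).2 ∨
        v (lit φ (3 * (o / 3) + 2)).1 = (lit φ (3 * (o / 3) + 2)).2 := by
      rw [hl.1, hl.2.1, hl.2.2]
      exact hC
    rcases h3 with ⟨e1, e2, e3⟩ | ⟨e1, e2, e3⟩ | ⟨e1, e2, e3⟩
    · rw [← e3, ← e2, ← e1] at h4
      exact h4
    · rw [← e1, ← e2, ← e3] at h4
      rcases h4 with h4 | h4 | h4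
      · exact .inr (.inr h4)
      · exact .inl h4
      · exact .inr (.inl h4)
    · rw [← e1, ← e3, ← e2] at h4
      rcases h4 with h4 | h4 | h4
      · exact .inr (.inl h4)
      · exact .inr (.inr h4)
      · exact .inl h4
  have stG : ∀ o < sl φ, ReflTransGen (E true) (tl φ (nxt o)) (0, 0, 0) → ReflTransGen (E true) (tl φ o) (0, 0, 0) := by
    intro o ho h
    by_cases e : v (lit φ o).1 = (lit φ o).2
    · exact (ltrue o ho e).1
    · exact .head (lfalse o ho e) (.head (eht o ho) h)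
  have GT : ∀ o < sl φ, ReflTransGen (E true) (tl φ o) (0, 0, 0) := by
    intro o ho
    rcases cls o ho with e | e | e
    · exact (ltrue o ho e).1
    · exact stG o ho (ltrue _ (nxt_lt φ ho) e).1
    · exact stG o ho (stG _ (nxt_lt φ ho) (ltrue _ (nxt_lt φ (nxt_lt φ ho)) e).1)
  have stF : ∀ o < sl φ, (v (lit φ o).1 = (lit φ o).2 ∨ ReflTransGen (E true) (0, 0, 0) (tl φ o)) →
      ReflTransGen (E true) (0, 0, 0) (tl φ (nxt o)) := by
    intro o ho h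
    by_cases e : v (lit φ o).1 = (lit φ o).2
    · exact (ltrue o ho e).2.tail (eht o ho)
    · exact ((h.resolve_left e).tail (lfalse o ho e)).tail (eht o ho)
  have FT : ∀ o < sl φ, ReflTransGen (E true) (0, 0, 0) (tl φ o) := by
    intro o ho
    have h1 := nxt_lt φ ho
    have h2 := nxt_lt φ h1
    have e3 := nxt_nxt o
    rcases cls o ho with e | e | e
    · have := stF _ h2 (.inr (stF _ h1 (.inr (stF _ ho (.inl e)))))
      rwa [e3] at this
    · have := stF _ h2 (.inr (stF _ h1 (.inl e)))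
      rwa [e3] at this
    · have := stF _ h2 (.inl e)
      rwa [e3] at this
  have hdiv : ∀ i < K φ, i / 2 < sl φ := fun i hi => by unfold K at hi; unfold sl; omega
  have GY : ∀ x < sl φ, ∀ i < K φ, ReflTransGen (E true) (2, x, i) (0, 0, 0) := by
    intro x hx i hi
    by_cases h : ((2, x, i) : T) = hd φ (i / 2)
    · rw [h]
      exact .head (eht _ (hdiv i hi)) (GT _ (nxt_lt φ (hdiv i hi)))
    · exact .head (eY1 x hx i hi h) G1
  have GT' : ∀ x < sl φ, ∀ i < K φ, ReflTransGen (E true) (1, x, i) (0, 0, 0) := by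
    intro x hx i hi
    rcases hvx : v x with _ | _
    · have h := eTY x hx i hi
      rw [hvx] at h
      exact .head h (GY x hx i hi)
    · obtain ⟨j, hj, h1, -⟩ := succ_mod_surj hi
      have h := eTY' x hx j hj
      rw [hvx, h1] at h
      exact .head h (GY x hx j hj)
  have FT' : ∀ x < sl φ, ∀ i < K φ, ReflTransGen (E true) (0, 0, 0) (1, x, i) := by
    intro x hx i hi
    by_cases h : ((1, x, i) : T) = tl φ (i / 2)
    · rw [h]
      exact FT _ (hdiv i hi)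
    · exact .single (e0T x hx i hi h)
  have FY : ∀ x < sl φ, ∀ i < K φ, ReflTransGen (E true) (0, 0, 0) (2, x, i) := by
    intro x hx i hi
    rcases hvx : v x with _ | _
    · have h := eTY x hx i hi
      rw [hvx] at h
      exact (FT' x hx i hi).tail h
    · have h := eTY' x hx i hi
      rw [hvx] at h
      exact (FT' x hx _ (Nat.mod_lt _ (by omega))).tail h
  -- assembly
  have a02 := eQ 0 (by omega) 2 (by omega) (by omega)
  have a32 := eQ 3 (by omega) 2 (by omega) (by omega)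
  have a31 := eQ 3 (by omega) 1 (by omega) (by omega)
  have a21 := eQ 2 (by omega) 1 (by omega) (by omega)
  have a20 := eQ 2 (by omega) 0 (by omega) (by omega)
  have a10 := eQ 1 (by omega) 0 (by omega) (by omega)
  have a03 := eQ 0 (by omega) 3 (by omega) (by omega)
  norm_num at a02 a32 a31 a21 a20 a10 a03
  have lk0 : ReflTransGen (Lk (A false)) ⟨(0, 0, 0), q 0 (by omega)⟩ ⟨(0, 0, 0), q 0 (by omega)⟩ := .refl
  have lk3 : ReflTransGen (Lk (A false)) ⟨(0, 0, 0), q 0 (by omega)⟩ ⟨(0, 3, 0), q 3 (by omega)⟩ :=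
    .single ⟨_, EA _ _ _ a02, EA _ _ _ a32⟩
  have lk2 : ReflTransGen (Lk (A false)) ⟨(0, 0, 0), q 0 (by omega)⟩ ⟨(0, 2, 0), q 2 (by omega)⟩ :=
    lk3.tail ⟨_, EA _ _ _ a31, EA _ _ _ a21⟩
  have lkx : ∀ x (h : E false x (0, 0, 0)), ReflTransGen (Lk (A false)) ⟨(0, 0, 0), q 0 (by omega)⟩ ⟨x, h.1⟩ :=
    fun x h => lk2.tail ⟨_, EA _ _ _ a20, EA _ _ _ h⟩
  refine ⟨A false, A true, fun u w h => ⟨h.1, fun e => es_ne φ h.1 (congrArg Subtype.val e)⟩,
    fun u w h => ⟨h.1, fun e => es_ne φ h.1 (congrArg Subtype.val e)⟩,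
    fun u w h => by have := h.1.2.symm.trans h.2.2; simp at this,
    (antistrong_iff ⟨(0, 0, 0), q 0 (by omega)⟩).2 ⟨?_, ?_, ?_⟩,
    (strong_iff ⟨(0, 0, 0), q 0 (by omega)⟩).2 ⟨?_, ?_⟩⟩
  · have : Fintype {x // x ∈ vs φ} := Fintype.ofFinite _
    rw [Nat.card_eq_fintype_card]
    exact Fintype.two_lt_card_iff.2 ⟨⟨(0, 0, 0), q 0 (by omega)⟩, ⟨(0, 1, 0), q 1 (by omega)⟩,
      ⟨(0, 2, 0), q 2 (by omega)⟩, by simp, by simp, by simp⟩
  · rintro ⟨x, hx⟩
    rcases (mem_vs φ x).1 hx with ⟨a, ha, rfl⟩ | ⟨y, hy, i, hi, rfl | rfl⟩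
    · interval_cases a
      · exact lk0
      · exact lkx _ a10
      · exact lk2
      · exact lk3
    · exact lkx _ (eT0 y hy i hi)
    · exact lkx _ (eY0 y hy i hi)
  · rintro ⟨x, hx⟩
    rcases (mem_vs φ x).1 hx with ⟨a, ha, rfl⟩ | ⟨y, hy, i, hi, rfl | rfl⟩
    · interval_cases a
      · exact ⟨_, EA _ _ _ a10⟩
      · exact ⟨_, EA _ _ _ a21⟩
      · exact ⟨_, EA _ _ _ a02⟩
      · exact ⟨_, EA _ _ _ a03⟩
    · exact ⟨_, EA _ _ _ (e1T y hy i hi)⟩
    · rcases hvy : v y with _ | _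
      · have h := eTY' y hy i hi
        rw [hvy] at h
        exact ⟨_, EA _ _ _ h⟩
      · have h := eTY y hy i hi
        rw [hvy] at h
        exact ⟨_, EA _ _ _ h⟩
  · rintro ⟨x, hx⟩
    rcases (mem_vs φ x).1 hx with ⟨a, ha, rfl⟩ | ⟨y, hy, i, hi, rfl | rfl⟩
    · interval_cases a
      · exact .refl
      · exact (lift _ _ F1 _).2
      · exact (lift _ _ F2 _).2
      · exact (lift _ _ F3 _).2
    · exact (lift _ _ (FT' y hy i hi) _).2
    · exact (lift _ _ (FY y hy i hi) _).2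
  · rintro ⟨x, hx⟩
    refine reflTransGen_swap.1 ?_
    rcases (mem_vs φ x).1 hx with ⟨a, ha, rfl⟩ | ⟨y, hy, i, hi, rfl | rfl⟩
    · interval_cases a
      · exact .refl
      · exact (lift _ _ G1 _).2
      · exact (lift _ _ G2 _).2
      · exact (lift _ _ G3 _).2
    · exact (lift _ _ (GT' y hy i hi) _).2
    · exact (lift _ _ (GY y hy i hi) _).2

theorem hard_iff (hφ : ∀ C ∈ φ, ∀ x ∈ C.vars, x < 3 * φ.length) : Sat3 φ ↔ HasDec (mkGr (vs φ) (es φ)) := by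
  constructor
  · intro h
    exact (forward φ hφ h).of_equiv (mkGrEquiv (vs φ) (es φ)).symm fun u v => by
      rw [mkGr_arc]
      simp [R]
  · intro h
    exact backward φ hφ (h.of_equiv (mkGrEquiv (vs φ) (es φ)) fun u v => mkGr_arc _ _ u v)

theorem hasDec_hard : NPHard HasDec :=
  NPHard.of_sat3 (fun φ => mkGr (vs φ) (es φ)) (by unfold vs es grid tl hd lit fl nxt sl K; fun_prop)
    fun φ hφ => hard_iff φ hφ

end Pool.Agent.Run7.h878.AS
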